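import Pool.Agent.H70.LB.Supp

/-!
# MP_2059f1_ag, block L, modules CS and DU
-/

open Topology Set
open Pool.Agent.H59
open Pool.Agent.H64.LB

namespace Pool.Agent.H70.LB

section CS
variable {R : Type} [CommRing R] {X : Type} [TopologicalSpace X]

theorem pf_incS_comp (n : ℕ) {U V W : Set X} (h : U ⊆ V) (h' : V ⊆ W) (x : Ch R n U) :
    pf R n (incS (h.trans h')) x = pf R n (incS h') (pf R n (incS h) x) :=
  HH.pf_comp R n (incS h) (incS h') x

/-- every chain of a directed union comes from a member -/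
theorem exists_member {F : Set (Set X)} (hF : ∀ U ∈ F, IsOpen U) (hne : F.Nonempty)
    (hd : DirectedOn (· ⊆ ·) F) {n : ℕ} (x : Ch R n ↥(⋃₀ F)) :
    ∃ (U : Set X) (hU : U ∈ F) (y : Ch R n U), pf R n (incS (subset_sUnion_of_mem hU)) y = x := by
  induction x using Finsupp.induction_linear with
  | zero =>
    obtain ⟨U, hU⟩ := hne
    exact ⟨U, hU, 0, map_zero _⟩
  | add u v hu hv =>
    obtain ⟨U, hU, y, hy⟩ := hu
    obtain ⟨V, hV, y', hy'⟩ := hv
    obtain ⟨W, hW, hUW, hVW⟩ := hd U hU V hV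
    refine ⟨W, hW, pf R n (incS hUW) y + pf R n (incS hVW) y', ?_⟩
    rw [map_add, ← pf_incS_comp, ← pf_incS_comp, hy, hy']
  | single σ r =>
    have hne' : Nonempty F := ⟨⟨_, hne.choose_spec⟩⟩
    have hcpt : IsCompact (range fun p => ((σ p : ↥(⋃₀ F)) : X)) :=
      isCompact_range (continuous_subtype_val.comp σ.continuous)
    obtain ⟨⟨U, hU⟩, hUs⟩ := hcpt.elim_directed_cover (fun i : F => (i : Set X))
      (fun i => hF i i.2) (by
        rintro _ ⟨p, rfl⟩
        obtain ⟨U, hU, hx⟩ := (σ p).2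
        exact mem_iUnion.2 ⟨⟨U, hU⟩, hx⟩) (directedOn_iff_directed.1 hd)
    refine ⟨U, hU, Finsupp.single (⟨fun p => ⟨σ p, hUs ⟨p, rfl⟩⟩,
      (continuous_subtype_val.comp σ.continuous).subtype_mk _⟩ : Smp n U) r, ?_⟩
    rw [pf_single]
    rfl

theorem mem_ZZ_of_pf {Y Z : Type} [TopologicalSpace Y] [TopologicalSpace Z] {f : C(Y, Z)}
    (hf : Function.Injective f) {q : ℕ} {x : Ch R (q + 1) Y}
    (h : pf R (q + 1) f x ∈ ZZ R q Z) : x ∈ ZZ R q Y := by
  cases q with
  | zero => rfl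
  | succ q =>
    rw [mem_ZZ_succ] at h ⊢
    apply pf_inj hf
    rw [← bd_pf, h, map_zero]

end CS

/-- [CS] -/
theorem cs : T_CS := by
  intro R _ X _ F hF hne hd q
  refine ⟨?_, ?_⟩
  · intro z
    induction z using HH.ind with
    | h x =>
      obtain ⟨U, hU, y, hy⟩ := exists_member hF hne hd x.1
      have hyZ : y ∈ ZZ R q U := mem_ZZ_of_pf (incS_injective (subset_sUnion_of_mem hU)) (by
        rw [hy]; exact x.2)
      refine ⟨U, hU, HH.mk R q U ⟨y, hyZ⟩, ?_⟩
      rw [HH.map_mk]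
      congr 1
      exact Subtype.ext hy
  · intro U hU z hz
    induction z using HH.ind with
    | h x =>
      rw [HH.map_mk, HH.mk_eq_zero_iff] at hz
      obtain ⟨w, hw⟩ := hz
      rw [HH.mapZ_coe] at hw
      obtain ⟨V0, hV0, w', hw'⟩ := exists_member hF hne hd w
      obtain ⟨V, hV, hUV, hV0V⟩ := hd U hU V0 hV0
      refine ⟨V, hV, hUV, ?_⟩
      rw [HH.map_mk, HH.mk_eq_zero_iff]
      refine ⟨pf R (q + 2) (incS hV0V) w', ?_⟩
      rw [HH.mapZ_coe]
      apply pf_inj (incS_injective (subset_sUnion_of_mem hV))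
      rw [← bd_pf, ← pf_incS_comp, ← pf_incS_comp, hw', hw]

/-- homology of an empty space -/
theorem HH_of_isEmpty (R : Type) [CommRing R] (Y : Type) [TopologicalSpace Y] [IsEmpty Y] (q : ℕ) :
    Subsingleton (HH R q Y) := by
  have h1 : IsEmpty (Smp (q + 1) Y) := ⟨fun σ => isEmptyElim (σ (stdSimplex.vertex 0))⟩
  have h2 : Subsingleton (Ch R (q + 1) Y) := inferInstance
  refine subsingleton_of_forall_eq 0 (fun z => ?_)
  induction z using HH.ind with
  | h x =>
    have : x = 0 := Subtype.ext (Subsingleton.elim _ _)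
    rw [this, map_zero]

/-- [DU] -/
theorem du (hMV : T_MV) : T_DU := by
  intro R _ X _ U V hU hV hUV hempty q
  obtain ⟨M⟩ := hMV R
  have hI : IsEmpty ↥(U ∩ V) := by
    constructor
    rintro ⟨x, hx⟩
    rw [hempty] at hx
    exact hx
  constructor
  · rintro ⟨a, b⟩ ⟨a', b'⟩ hab
    simp only at hab
    have hs := HH_of_isEmpty R ↥(U ∩ V) q
    have h1 : HH.map R q (inc U) (a - a') + HH.map R q (inc V) (b - b') = 0 := by
      rw [map_sub, map_sub]
      have := sub_eq_zero.2 hab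
      rw [← this]
      abel
    obtain ⟨w, hw1, hw2⟩ := (M.exact_sum X U V hU hV hUV q _ _).1 h1
    have hw : w = 0 := Subsingleton.elim _ _
    rw [hw, map_zero] at hw1 hw2
    rw [neg_zero] at hw2
    exact Prod.ext (sub_eq_zero.1 hw1) (sub_eq_zero.1 hw2)
  · intro z
    cases q with
    | zero =>
      obtain ⟨a, b, h⟩ := M.surj_zero X U V hU hV hUV z
      exact ⟨(a, b), h.symm⟩
    | succ q =>
      have hs := HH_of_isEmpty R ↥(U ∩ V) q
      obtain ⟨a, b, h⟩ := (M.exact_union X U V hU hV hUV q z).2 (Subsingleton.elim _ _)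
      exact ⟨(a, b), h.symm⟩

end Pool.Agent.H70.LB
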