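import Pool.Agent.H70.LB.Supp
import Pool.Agent.H59.Connect

/-!
# MP_2059f1_ag, block L, modules HM, DI, H0, CON
-/

open Topology Set
open Pool.Agent.H59
open Pool.Agent.H64.LB

namespace Pool.Agent.H70.LB

/-- [HM] -/
theorem hm (h : T_HI) : T_HM := by
  intro R _ X Y _ _ f g hfg q
  obtain ⟨P, hP0, hP⟩ := h R X Y f g hfg
  ext z
  induction z using HH.ind with
  | h x =>
    rw [HH.map_mk, HH.map_mk, HH.mk_eq_mk_iff]
    refine ⟨P (q + 1) x.1, ?_⟩
    rw [hP, HH.mapZ_coe, HH.mapZ_coe]
    have h1 : P q (bd R q X x.1) = 0 := by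
      cases q with
      | zero => rw [hP0]; rfl
      | succ q =>
        have h2 := x.2
        rw [mem_ZZ_succ] at h2
        rw [h2, map_zero]
    rw [h1, sub_zero]

section DI
variable {R : Type} [CommRing R] {Y : Type} [TopologicalSpace Y]

theorem bd_cstR (m : ℕ) (e : Y) (r : R) :
    bd R m Y (Finsupp.single (cst (m + 1) e) r) =
      Finsupp.single (cst m e) (if Even m then r else 0) := by
  rw [bd_single]
  simp only [fc_cst]
  rw [← Finset.sum_smul, Fin.sum_univ_eq_sum_range (fun i => (-1 : R) ^ i) (m + 1),
    neg_one_geom_sum]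
  by_cases hm : Even m
  · rw [if_pos hm, if_neg (Nat.not_even_iff_odd.2 hm.add_one)]
    simp
  · rw [if_neg hm, if_pos (Nat.not_even_iff_odd.1 hm).add_one]
    simp

theorem smp_eq_cst_of_discrete [DiscreteTopology Y] {n : ℕ} (σ : Smp (n + 1) Y) :
    ∃ e, σ = cst (n + 1) e := by
  have h1 : IsPreconnected (range σ) := isPreconnected_range σ.continuous
  refine ⟨σ (stdSimplex.vertex 0), ?_⟩
  ext p
  have h2 := h1.subsingleton (mem_range_self p) (mem_range_self (stdSimplex.vertex 0))
  exact h2

theorem smp_one_eq_cst (σ : Smp 1 Y) : σ = cst 1 (σ (stdSimplex.vertex 0)) :=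
  smp_one_ext rfl

/-- discrete spaces: a cycle in positive degree is a boundary -/
theorem discrete_bd [DiscreteTopology Y] (q : ℕ) (x : Ch R (q + 2) Y)
    (hx : bd R (q + 1) Y x = 0) : ∃ w, bd R (q + 2) Y w = x := by
  classical
  -- the operation of adding a vertex
  let up : ∀ n, Ch R (n + 1) Y →ₗ[R] Ch R (n + 2) Y := fun n =>
    Finsupp.lmapDomain R R (fun σ => cst (n + 2) (σ (stdSimplex.vertex 0)))
  have hup : ∀ n (e : Y) (r : R), up n (Finsupp.single (cst (n + 1) e) r) =
      Finsupp.single (cst (n + 2) e) r := by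
    intro n e r
    simp only [up, Finsupp.lmapDomain_apply, Finsupp.mapDomain_single]
    rfl
  rcases Nat.even_or_odd q with hq | hq
  · -- q even: q + 2 is even, x = bd (up x)
    refine ⟨up (q + 1) x, ?_⟩
    clear hx
    induction x using Finsupp.induction_linear with
    | zero => simp
    | add u v hu hv => rw [map_add, map_add, hu, hv]
    | single σ r =>
      obtain ⟨e, rfl⟩ := smp_eq_cst_of_discrete σ
      rw [hup, bd_cstR, if_pos (by rw [Nat.even_add]; simp [hq])]
  · -- q odd: q + 1 even, bd is injective
    refine ⟨0, ?_⟩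
    rw [map_zero]
    have h1 : ∀ x : Ch R (q + 2) Y, up q (bd R (q + 1) Y x) = x := by
      intro x
      induction x using Finsupp.induction_linear with
      | zero => simp
      | add u v hu hv => rw [map_add, map_add, hu, hv]
      | single σ r =>
        obtain ⟨e, rfl⟩ := smp_eq_cst_of_discrete σ
        rw [bd_cstR, if_pos (by exact hq.add_one), hup]
    rw [← h1 x, hx, map_zero]

end DI

/-- [DI] -/
theorem di : T_DI := by
  intro R _ Y _
  refine ⟨?_, ?_, ?_, ?_, ?_⟩
  · intro hd q
    refine subsingleton_of_forall_eq 0 (fun z => ?_)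
    induction z using HH.ind with
    | h x =>
      rw [HH.mk_eq_zero_iff]
      exact discrete_bd q x.1 x.2
  · rw [eq_top_iff]
    rintro z -
    induction z using HH.ind with
    | h x =>
      obtain ⟨x, hx⟩ := x
      induction x using Finsupp.induction_linear with
      | zero => exact (by
          have : HH.mk R 0 Y ⟨0, hx⟩ = 0 := map_zero _
          rw [this]; exact Submodule.zero_mem _)
      | add u v hu hv =>
        have h1 : HH.mk R 0 Y ⟨u + v, hx⟩ = HH.mk R 0 Y ⟨u, rfl⟩ + HH.mk R 0 Y ⟨v, rfl⟩ := by
          rw [← map_add]; rfl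
        rw [h1]
        exact Submodule.add_mem _ (hu rfl) (hv rfl)
      | single σ r =>
        have h1 : HH.mk R 0 Y ⟨Finsupp.single σ r, hx⟩ =
            r • HH.point R (σ (stdSimplex.vertex 0)) := by
          unfold HH.point
          rw [← map_smul]
          congr 1
          apply Subtype.ext
          show Finsupp.single σ r = r • Finsupp.single _ (1 : R)
          rw [Finsupp.smul_single, smul_eq_mul, mul_one]
          congr 1
          exact smp_one_eq_cst σ
        rw [h1]
        exact Submodule.smul_mem _ _ (Submodule.subset_span ⟨_, rfl⟩)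
  · rintro y y' ⟨γ⟩
    unfold HH.point
    rw [HH.mk_eq_mk_iff]
    refine ⟨Finsupp.single (toSmp γ.symm) 1, ?_⟩
    rw [bd_single, Fin.sum_univ_two]
    have h0 : fc (toSmp γ.symm) 0 = ContinuousMap.const _ y := by
      apply smp_one_ext
      have : iv (cf 0 (stdSimplex.vertex 0)) = 1 := by
        rw [cf_vertex]
        apply Subtype.ext
        rw [iv_coe]
        simp
      show γ.symm (iv (cf 0 (stdSimplex.vertex 0))) = y
      rw [this]
      simp
    have h1 : fc (toSmp γ.symm) 1 = ContinuousMap.const _ y' := by
      apply smp_one_ext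
      have : iv (cf 1 (stdSimplex.vertex 0)) = 0 := by
        rw [cf_vertex]
        apply Subtype.ext
        rw [iv_coe]
        simp
      show γ.symm (iv (cf 1 (stdSimplex.vertex 0))) = y'
      rw [this]
      simp
    rw [h0, h1]
    simp [sub_eq_add_neg]
  · intro f hf
    let φ0 : Ch R 1 Y →ₗ[R] R := Finsupp.linearCombination R (fun σ => f (σ (stdSimplex.vertex 0)))
    have hφ0 : ∀ w : Ch R 2 Y, φ0 (bd R 1 Y w) = 0 := by
      intro w
      induction w using Finsupp.induction_linear with
      | zero => simp
      | add u v hu hv => rw [map_add, map_add, hu, hv, add_zero]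
      | single σ r =>
        rw [bd_single, Fin.sum_univ_two]
        simp only [φ0, map_smul, map_add, Finsupp.linearCombination_single, one_smul]
        have h1 : f (fc σ 0 (stdSimplex.vertex 0)) = f (fc σ 1 (stdSimplex.vertex 0)) := by
          have h2 : IsLocallyConstant (f ∘ σ) := hf.comp_continuous σ.continuous
          exact h2.apply_eq_of_preconnectedSpace _ _
        rw [h1]
        simp
    refine ⟨Submodule.liftQ _ (φ0.comp (ZZ R 0 Y).subtype) ?_, ?_⟩
    · rintro ⟨x, hx⟩ ⟨w, hw⟩
      show φ0 x = 0
      have hw' : bd R 1 Y w = x := hw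
      rw [← hw', hφ0]
    · intro y
      show φ0 (Finsupp.single (ContinuousMap.const _ y) 1) = f y
      simp only [φ0, Finsupp.linearCombination_single, one_smul]
      rfl
  · intro Y' _ f y
    unfold HH.point
    rw [HH.map_mk]
    congr 1
    apply Subtype.ext
    rw [HH.mapZ_coe]
    show pf R 1 f (Finsupp.single (ContinuousMap.const _ y) 1) = _
    rw [pf_single]
    rfl

/-- the augmentation on homology -/
noncomputable def aug (R : Type) [CommRing R] (Y : Type) [TopologicalSpace Y] : HH R 0 Y →ₗ[R] R :=
  Submodule.liftQ _ ((Finsupp.linearCombination R (fun _ : Smp 1 Y => (1 : R))).comp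
    (ZZ R 0 Y).subtype) (by
      rintro ⟨x, hx⟩ ⟨w, hw⟩
      show Finsupp.linearCombination R (fun _ : Smp 1 Y => (1 : R)) x = 0
      have hw' : bd R 1 Y w = x := hw
      rw [← hw']
      clear hw hw' hx
      induction w using Finsupp.induction_linear with
      | zero => simp
      | add u v hu hv => rw [map_add, map_add, hu, hv, add_zero]
      | single σ r =>
        rw [bd_single, Fin.sum_univ_two]
        simp only [map_smul, map_add, Finsupp.linearCombination_single, one_smul]
        simp)

theorem aug_point (R : Type) [CommRing R] (Y : Type) [TopologicalSpace Y] (y : Y) :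
    aug R Y (HH.point R y) = 1 := by
  show Finsupp.linearCombination R (fun _ : Smp 1 Y => (1 : R))
    (Finsupp.single (ContinuousMap.const _ y) 1) = 1
  rw [Finsupp.linearCombination_single, one_smul]

/-- [H0] -/
theorem h0 (hDI : T_DI) : T_H0 := by
  intro R _
  refine ⟨fun Y _ => aug R Y, fun Y _ y => aug_point R Y y, ?_, ?_⟩
  · intro Y Y' _ _ f z
    have hspan := (hDI R Y).2.1
    have hz : z ∈ Submodule.span R (range (HH.point R : Y → HH R 0 Y)) := by
      rw [hspan]; trivial
    induction hz using Submodule.span_induction with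
    | mem x hx =>
      obtain ⟨y, rfl⟩ := hx
      rw [(hDI R Y).2.2.2.2 Y' f y, aug_point, aug_point]
    | zero => simp
    | add u v _ _ hu hv => rw [map_add, map_add, map_add, hu, hv]
    | smul r u _ hu => rw [map_smul, map_smul, map_smul, hu]
  · intro Y _ _
    obtain ⟨y0⟩ : Nonempty Y := PathConnectedSpace.nonempty
    have hall : ∀ z : HH R 0 Y, z = aug R Y z • HH.point R y0 := by
      intro z
      have hspan := (hDI R Y).2.1
      have hz : z ∈ Submodule.span R (range (HH.point R : Y → HH R 0 Y)) := by
        rw [hspan]; trivial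
      induction hz using Submodule.span_induction with
      | mem x hx =>
        obtain ⟨y, rfl⟩ := hx
        rw [aug_point, one_smul]
        exact (hDI R Y).2.2.1 y y0 (PathConnectedSpace.joined y y0)
      | zero => simp
      | add u v _ _ hu hv => rw [map_add, add_smul, ← hu, ← hv]
      | smul r u _ hu => rw [map_smul, smul_eq_mul, mul_smul, ← hu]
    constructor
    · intro a b hab
      rw [hall a, hall b, hab]
    · intro r
      refine ⟨r • HH.point R y0, ?_⟩
      show aug R Y (r • HH.point R y0) = r
      rw [map_smul, aug_point, smul_eq_mul, mul_one]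

/-- homotopy equivalences induce bijections -/
theorem HH_equiv (hHM : T_HM) (R : Type) [CommRing R] {X Y : Type} [TopologicalSpace X]
    [TopologicalSpace Y] {f : C(X, Y)} {g : C(Y, X)}
    (h1 : (g.comp f).Homotopic (ContinuousMap.id X))
    (h2 : (f.comp g).Homotopic (ContinuousMap.id Y)) (q : ℕ) :
    Function.Bijective (HH.map R q f) := by
  have e1 : ∀ z, HH.map R q g (HH.map R q f z) = z := by
    intro z
    rw [← HH.map_comp, hHM R X X _ _ h1 q, HH.map_id]
  have e2 : ∀ z, HH.map R q f (HH.map R q g z) = z := by
    intro z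
    rw [← HH.map_comp, hHM R Y Y _ _ h2 q, HH.map_id]
  exact ⟨fun a b hab => by rw [← e1 a, hab, e1], fun b => ⟨_, e2 b⟩⟩

/-- [CON] -/
theorem con (hHM : T_HM) (hDI : T_DI) : T_CON := by
  intro R _ Y _ _ q
  obtain ⟨e⟩ := (inferInstance : ContractibleSpace Y).hequiv_unit'
  have hb := HH_equiv hHM R (f := e.toFun) (g := e.invFun) e.left_inv e.right_inv (q + 1)
  have hs := (hDI R Unit).1 inferInstance q
  exact hb.1.subsingleton

end Pool.Agent.H70.LB
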