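import Pool.Agent.H70.LB.CS

/-!
# MP_2059f1_ag, block L, module MV: Mayer-Vietoris
-/

open Topology Set
open Pool.Agent.H59
open Pool.Agent.H64.LB

namespace Pool.Agent.H70.LB

section MV
variable {R : Type} [CommRing R] {X : Type} [TopologicalSpace X]

/-- the relation of the boundary map: `z = [i a + j b]`, `w = [c]`, `c ↦ ∂ a` in `U` -/
def Rel (U V : Set X) (q : ℕ) (z : HH R (q + 1) X) (w : HH R q ↥(U ∩ V)) : Prop :=
  ∃ (a : Ch R (q + 2) U) (b : Ch R (q + 2) V) (c : Ch R (q + 1) ↥(U ∩ V))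
    (hx : pf R (q + 2) (inc U) a + pf R (q + 2) (inc V) b ∈ ZZ R (q + 1) X)
    (hc : c ∈ ZZ R q ↥(U ∩ V)),
    z = HH.mk R (q + 1) X ⟨_, hx⟩ ∧ w = HH.mk R q ↥(U ∩ V) ⟨c, hc⟩ ∧
      pf R (q + 1) (incL U V) c = bd R (q + 1) U a

theorem Rel.add {U V : Set X} {q : ℕ} {z z' : HH R (q + 1) X} {w w' : HH R q ↥(U ∩ V)}
    (h : Rel U V q z w) (h' : Rel U V q z' w') : Rel U V q (z + z') (w + w') := by
  obtain ⟨a, b, c, hx, hc, rfl, rfl, h1⟩ := h
  obtain ⟨a', b', c', hx', hc', rfl, rfl, h1'⟩ := h'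
  refine ⟨a + a', b + b', c + c', ?_, Submodule.add_mem _ hc hc', ?_, ?_, ?_⟩
  · have := Submodule.add_mem _ hx hx'
    rw [map_add, map_add]
    convert this using 1
    abel
  · rw [← map_add]
    congr 1
    apply Subtype.ext
    show _ = pf R (q + 2) (inc U) (a + a') + pf R (q + 2) (inc V) (b + b')
    rw [map_add, map_add]
    show (pf R (q + 2) (inc U) a + pf R (q + 2) (inc V) b) +
      (pf R (q + 2) (inc U) a' + pf R (q + 2) (inc V) b') = _
    abel
  · rw [← map_add]; rfl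
  · rw [map_add, map_add, h1, h1']

theorem Rel.smul {U V : Set X} {q : ℕ} {z : HH R (q + 1) X} {w : HH R q ↥(U ∩ V)}
    (h : Rel U V q z w) (r : R) : Rel U V q (r • z) (r • w) := by
  obtain ⟨a, b, c, hx, hc, rfl, rfl, h1⟩ := h
  refine ⟨r • a, r • b, r • c, ?_, Submodule.smul_mem _ r hc, ?_, ?_, ?_⟩
  · have := Submodule.smul_mem _ r hx
    rw [map_smul, map_smul, ← smul_add]
    exact this
  · rw [← map_smul]
    congr 1
    apply Subtype.ext
    show _ = pf R (q + 2) (inc U) (r • a) + pf R (q + 2) (inc V) (r • b)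
    rw [map_smul, map_smul, ← smul_add]
    rfl
  · rw [← map_smul]; rfl
  · rw [map_smul, map_smul, h1]

/-- the second half of the gluing data -/
theorem bd_right {U V : Set X} {q : ℕ} {a : Ch R (q + 2) U} {b : Ch R (q + 2) V}
    {c : Ch R (q + 1) ↥(U ∩ V)}
    (hx : bd R (q + 1) X (pf R (q + 2) (inc U) a + pf R (q + 2) (inc V) b) = 0)
    (h1 : pf R (q + 1) (incL U V) c = bd R (q + 1) U a) :
    pf R (q + 1) (incR U V) c = -bd R (q + 1) V b := by
  apply pf_inj (inc_injective V)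
  rw [pf_incR, ← pf_incL, h1, map_neg, ← bd_pf, ← bd_pf]
  rw [map_add] at hx
  exact eq_neg_of_add_eq_zero_left hx

section cover
variable {U V : Set X}

/-- small chains -/
theorem exists_decomp (hSM : T_SM) (hU : IsOpen U) (hV : IsOpen V) (hUV : U ∪ V = univ) {q : ℕ}
    (x : Ch R (q + 2) X) (hx : bd R (q + 1) X x = 0) :
    ∃ (a : Ch R (q + 2) U) (b : Ch R (q + 2) V) (w : Ch R (q + 3) X),
      x = pf R (q + 2) (inc U) a + pf R (q + 2) (inc V) b + bd R (q + 2) X w := by
  obtain ⟨S, D, -, ⟨-, hD⟩, -, -, a, b, hab⟩ := hSM R X U V hU hV hUV (q + 2) x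
  refine ⟨a, b, D (q + 2) x, ?_⟩
  have h1 := hD (q + 1) x
  rw [hx, map_zero, sub_zero] at h1
  rw [h1, ← hab]
  abel

/-- small chains with small boundary -/
theorem exists_decomp_bd (hSM : T_SM) (hU : IsOpen U) (hV : IsOpen V) (hUV : U ∪ V = univ)
    {q : ℕ} (a : Ch R (q + 1) U) (b : Ch R (q + 1) V) (w : Ch R (q + 2) X)
    (hw : bd R (q + 1) X w = pf R (q + 1) (inc U) a + pf R (q + 1) (inc V) b) :
    ∃ (a' : Ch R (q + 2) U) (b' : Ch R (q + 2) V),
      pf R (q + 1) (inc U) a + pf R (q + 1) (inc V) b =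
        bd R (q + 1) X (pf R (q + 2) (inc U) a' + pf R (q + 2) (inc V) b') := by
  obtain ⟨S, D, hS, ⟨-, hD⟩, -, hDW, a1, b1, hab⟩ := hSM R X U V hU hV hUV (q + 2) w
  set x' := pf R (q + 1) (inc U) a + pf R (q + 1) (inc V) b with hx'
  have h1 := hD q x'
  have h2 : bd R q X x' = 0 := by rw [← hw]; exact bd_bd q w
  rw [h2, map_zero, sub_zero] at h1
  have h3 := hS (q + 1) w
  rw [hw, hab] at h3
  obtain ⟨a2, ha2⟩ := hDW U (q + 1) a
  obtain ⟨b2, hb2⟩ := hDW V (q + 1) b
  refine ⟨a1 + a2, b1 + b2, ?_⟩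
  have h4 : D (q + 1) x' = pf R (q + 2) (inc U) a2 + pf R (q + 2) (inc V) b2 := by
    rw [hx', map_add, ha2, hb2]
  rw [h4, ← h3] at h1
  have h5 : x' = bd R (q + 1) X (pf R (q + 2) (inc U) a2 + pf R (q + 2) (inc V) b2) +
      bd R (q + 1) X (pf R (q + 2) (inc U) a1 + pf R (q + 2) (inc V) b1) := by
    rw [h1]; abel
  rw [h5]
  simp only [map_add]
  abel

theorem exists_rel (hSM : T_SM) (hU : IsOpen U) (hV : IsOpen V) (hUV : U ∪ V = univ) (q : ℕ)
    (z : HH R (q + 1) X) : ∃ w, Rel U V q z w := by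
  induction z using HH.ind with
  | h x =>
    obtain ⟨x, hx⟩ := x
    rw [mem_ZZ_succ] at hx
    obtain ⟨a, b, w, hab⟩ := exists_decomp hSM hU hV hUV x hx
    have hbd : bd R (q + 1) X (pf R (q + 2) (inc U) a + pf R (q + 2) (inc V) b) = 0 := by
      have h1 := congrArg (bd R (q + 1) X) hab
      rw [hx, map_add, bd_bd, add_zero] at h1
      exact h1.symm
    have h2 : pf R (q + 1) (inc U) (bd R (q + 1) U a) =
        pf R (q + 1) (inc V) (-bd R (q + 1) V b) := by
      rw [map_neg, ← bd_pf, ← bd_pf]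
      rw [map_add] at hbd
      exact eq_neg_of_add_eq_zero_left hbd
    obtain ⟨c, hc1, hc2⟩ := exists_inter h2
    have hcZ : c ∈ ZZ R q ↥(U ∩ V) := by
      apply mem_ZZ_of_pf (incL_injective U V)
      rw [hc1]
      exact BB_le_ZZ R q ⟨a, rfl⟩
    refine ⟨HH.mk R q _ ⟨c, hcZ⟩, a, b, c, hbd, hcZ, ?_, rfl, hc1⟩
    rw [HH.mk_eq_mk_iff]
    refine ⟨w, ?_⟩
    show bd R (q + 2) X w = x - (pf R (q + 2) (inc U) a + pf R (q + 2) (inc V) b)
    rw [hab]; abel

theorem rel_zero (hSM : T_SM) (hU : IsOpen U) (hV : IsOpen V) (hUV : U ∪ V = univ) {q : ℕ}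
    {w : HH R q ↥(U ∩ V)} (h : Rel U V q (0 : HH R (q + 1) X) w) : w = 0 := by
  obtain ⟨a, b, c, hx, hc, h0, rfl, h1⟩ := h
  obtain ⟨y, hy⟩ := (HH.mk_eq_zero_iff R _).1 h0.symm
  obtain ⟨a', b', hab⟩ := exists_decomp_bd hSM hU hV hUV a b y hy
  have h2 : pf R (q + 2) (inc U) (a - bd R (q + 2) U a') =
      pf R (q + 2) (inc V) (-(b - bd R (q + 2) V b')) := by
    rw [map_sub, map_neg, map_sub, ← bd_pf, ← bd_pf]
    rw [map_add] at hab
    have := sub_eq_zero.2 hab
    rw [← sub_eq_zero, ← this]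
    abel
  obtain ⟨e, he1, he2⟩ := exists_inter h2
  rw [HH.mk_eq_zero_iff]
  refine ⟨e, ?_⟩
  apply pf_inj (incL_injective U V)
  rw [← bd_pf, he1, map_sub, bd_bd, sub_zero, ← h1]

theorem rel_unique (hSM : T_SM) (hU : IsOpen U) (hV : IsOpen V) (hUV : U ∪ V = univ) {q : ℕ}
    {z : HH R (q + 1) X} {w w' : HH R q ↥(U ∩ V)} (h : Rel U V q z w) (h' : Rel U V q z w') :
    w = w' := by
  have h1 := h.add (h'.smul (-1))
  rw [neg_one_smul, neg_one_smul, add_neg_cancel] at h1
  exact add_neg_eq_zero.1 (rel_zero hSM hU hV hUV h1)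

end cover

open Classical in
/-- the boundary map -/
noncomputable def delta (hSM : T_SM) (R : Type) [CommRing R] (X : Type) [TopologicalSpace X]
    (U V : Set X) (q : ℕ) : HH R (q + 1) X →ₗ[R] HH R q ↥(U ∩ V) :=
  if h : IsOpen U ∧ IsOpen V ∧ U ∪ V = univ then
    { toFun := fun z => (exists_rel hSM h.1 h.2.1 h.2.2 q z).choose
      map_add' := fun z z' => rel_unique hSM h.1 h.2.1 h.2.2
        (exists_rel hSM h.1 h.2.1 h.2.2 q (z + z')).choose_spec
        ((exists_rel hSM h.1 h.2.1 h.2.2 q z).choose_spec.add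
          (exists_rel hSM h.1 h.2.1 h.2.2 q z').choose_spec)
      map_smul' := fun r z => rel_unique hSM h.1 h.2.1 h.2.2
        (exists_rel hSM h.1 h.2.1 h.2.2 q (r • z)).choose_spec
        ((exists_rel hSM h.1 h.2.1 h.2.2 q z).choose_spec.smul r) }
  else 0

theorem delta_spec (hSM : T_SM) {U V : Set X} (hU : IsOpen U) (hV : IsOpen V)
    (hUV : U ∪ V = univ) (q : ℕ) (z : HH R (q + 1) X) :
    Rel U V q z (delta hSM R X U V q z) := by
  unfold delta
  rw [dif_pos ⟨hU, hV, hUV⟩]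
  exact (exists_rel hSM hU hV hUV q z).choose_spec

theorem delta_eq_iff (hSM : T_SM) {U V : Set X} (hU : IsOpen U) (hV : IsOpen V)
    (hUV : U ∪ V = univ) (q : ℕ) (z : HH R (q + 1) X) (w : HH R q ↥(U ∩ V)) :
    delta hSM R X U V q z = w ↔ Rel U V q z w := by
  constructor
  · rintro rfl
    exact delta_spec hSM hU hV hUV q z
  · intro h
    exact rel_unique hSM hU hV hUV (delta_spec hSM hU hV hUV q z) h

theorem HH_zero_decomp {U V : Set X} (hUV : U ∪ V = univ) (x : Ch R 1 X) :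
    ∃ (a : Ch R 1 U) (b : Ch R 1 V), x = pf R 1 (inc U) a + pf R 1 (inc V) b := by
  induction x using Finsupp.induction_linear with
  | zero => exact ⟨0, 0, by simp⟩
  | add u v hu hv =>
    obtain ⟨a, b, h⟩ := hu
    obtain ⟨a', b', h'⟩ := hv
    refine ⟨a + a', b + b', ?_⟩
    rw [map_add, map_add, h, h']
    abel
  | single σ r =>
    have h1 : σ (stdSimplex.vertex 0) ∈ U ∪ V := by rw [hUV]; trivial
    have h2 : ∀ p, σ p = σ (stdSimplex.vertex 0) := fun p => by
      rw [Subsingleton.elim p (stdSimplex.vertex (S := ℝ) (0 : Fin 1))]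
    rcases h1 with h1 | h1
    · have h3 : ∀ p, σ p ∈ U := fun p => by rw [h2 p]; exact h1
      refine ⟨Finsupp.single (⟨fun p => ⟨σ p, h3 p⟩,
        σ.continuous.subtype_mk _⟩ : Smp 1 U) r, 0, ?_⟩
      rw [map_zero, add_zero, pf_single]
      rfl
    · have h3 : ∀ p, σ p ∈ V := fun p => by rw [h2 p]; exact h1
      refine ⟨0, Finsupp.single (⟨fun p => ⟨σ p, h3 p⟩,
        σ.continuous.subtype_mk _⟩ : Smp 1 V) r, ?_⟩
      rw [map_zero, zero_add, pf_single]
      rfl

/-- [MV] the Mayer-Vietoris theory -/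
noncomputable def mvTheory (hSM : T_SM) (R : Type) [CommRing R] : MVTheory R where
  δ := fun X _ U V q => delta hSM R X U V q
  exact_inter := by
    intro X _ U V hU hV hUV q w
    constructor
    · rintro ⟨h1, h2⟩
      induction w using HH.ind with
      | h c =>
        obtain ⟨c, hc⟩ := c
        rw [HH.map_mk, HH.mk_eq_zero_iff] at h1 h2
        obtain ⟨a, ha⟩ := h1
        obtain ⟨b, hb⟩ := h2
        rw [HH.mapZ_coe] at ha hb
        have hx : bd R (q + 1) X (pf R (q + 2) (inc U) a + pf R (q + 2) (inc V) (-b)) = 0 := by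
          rw [map_neg, map_add, map_neg, bd_pf, bd_pf, ha, hb, pf_incL, pf_incR, add_neg_cancel]
        refine ⟨HH.mk R (q + 1) X ⟨_, hx⟩, ?_⟩
        rw [delta_eq_iff hSM hU hV hUV]
        exact ⟨a, -b, c, hx, hc, rfl, rfl, ha.symm⟩
    · rintro ⟨z, hz⟩
      rw [delta_eq_iff hSM hU hV hUV] at hz
      obtain ⟨a, b, c, hx, hc, rfl, rfl, h1⟩ := hz
      have h2 := bd_right hx h1
      constructor
      · rw [HH.map_mk, HH.mk_eq_zero_iff]
        exact ⟨a, by rw [HH.mapZ_coe, h1]⟩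
      · rw [HH.map_mk, HH.mk_eq_zero_iff]
        exact ⟨-b, by rw [HH.mapZ_coe, h2, map_neg]⟩
  exact_union := by
    intro X _ U V hU hV hUV q z
    rw [delta_eq_iff hSM hU hV hUV]
    constructor
    · rintro ⟨a, b, rfl⟩
      induction a using HH.ind with
      | h a =>
        induction b using HH.ind with
        | h b =>
          obtain ⟨a, ha⟩ := a
          obtain ⟨b, hb⟩ := b
          rw [mem_ZZ_succ] at ha hb
          have hx : bd R (q + 1) X (pf R (q + 2) (inc U) a + pf R (q + 2) (inc V) b) = 0 := by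
            rw [map_add, bd_pf, bd_pf, ha, hb, map_zero, map_zero, add_zero]
          refine ⟨a, b, 0, hx, Submodule.zero_mem _, ?_, ?_, ?_⟩
          · rw [HH.map_mk, HH.map_mk, ← map_add]
            rfl
          · exact (map_zero _).symm
          · rw [map_zero, ha]
    · rintro ⟨a, b, c, hx, hc, rfl, h0, h1⟩
      have h2 := bd_right hx h1
      obtain ⟨e, he⟩ := (HH.mk_eq_zero_iff R _).1 h0.symm
      have he' : bd R (q + 1) _ e = c := he
      have ha : bd R (q + 1) U (a - pf R (q + 2) (incL U V) e) = 0 := by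
        rw [map_sub, bd_pf, he', h1, sub_self]
      have hb : bd R (q + 1) V (b + pf R (q + 2) (incR U V) e) = 0 := by
        rw [map_add, bd_pf, he', h2, add_neg_cancel]
      refine ⟨HH.mk R (q + 1) U ⟨_, ha⟩, HH.mk R (q + 1) V ⟨_, hb⟩, ?_⟩
      rw [HH.map_mk, HH.map_mk, ← map_add]
      congr 1
      apply Subtype.ext
      show pf R (q + 2) (inc U) a + pf R (q + 2) (inc V) b =
        pf R (q + 2) (inc U) (a - pf R (q + 2) (incL U V) e) +
          pf R (q + 2) (inc V) (b + pf R (q + 2) (incR U V) e)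
      rw [map_sub, map_add, pf_incL, pf_incR]
      abel
  exact_sum := by
    intro X _ U V hU hV hUV q a b
    constructor
    · intro hab
      induction a using HH.ind with
      | h a =>
        induction b using HH.ind with
        | h b =>
          obtain ⟨a, ha⟩ := a
          obtain ⟨b, hb⟩ := b
          rw [HH.map_mk, HH.map_mk, ← map_add, HH.mk_eq_zero_iff] at hab
          obtain ⟨y, hy⟩ := hab
          have hy' : bd R (q + 1) X y = pf R (q + 1) (inc U) a + pf R (q + 1) (inc V) b := hy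
          obtain ⟨a', b', hab'⟩ := exists_decomp_bd hSM hU hV hUV a b y hy'
          have h2 : pf R (q + 1) (inc U) (a - bd R (q + 1) U a') =
              pf R (q + 1) (inc V) (-(b - bd R (q + 1) V b')) := by
            rw [map_sub, map_neg, map_sub, ← bd_pf, ← bd_pf]
            rw [map_add] at hab'
            have := sub_eq_zero.2 hab'
            rw [← sub_eq_zero, ← this]
            abel
          obtain ⟨e, he1, he2⟩ := exists_inter h2
          have heZ : e ∈ ZZ R q ↥(U ∩ V) := by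
            apply mem_ZZ_of_pf (incL_injective U V)
            rw [he1]
            exact Submodule.sub_mem _ ha (BB_le_ZZ R q ⟨a', rfl⟩)
          refine ⟨HH.mk R q _ ⟨e, heZ⟩, ?_, ?_⟩
          · rw [HH.map_mk, HH.mk_eq_mk_iff]
            refine ⟨a', ?_⟩
            rw [HH.mapZ_coe, he1]
            show bd R (q + 1) U a' = a - (a - bd R (q + 1) U a')
            abel
          · rw [HH.map_mk, ← map_neg, HH.mk_eq_mk_iff]
            refine ⟨b', ?_⟩
            show bd R (q + 1) V b' = b - -(pf R (q + 1) (incR U V) e)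
            rw [he2]
            abel
    · rintro ⟨w, rfl, rfl⟩
      rw [map_neg, ← HH.map_comp, ← HH.map_comp]
      exact add_neg_cancel _
  surj_zero := by
    intro X _ U V hU hV hUV z
    induction z using HH.ind with
    | h x =>
      obtain ⟨a, b, h⟩ := HH_zero_decomp hUV x.1
      refine ⟨HH.mk R 0 U ⟨a, rfl⟩, HH.mk R 0 V ⟨b, rfl⟩, ?_⟩
      rw [HH.map_mk, HH.map_mk, ← map_add]
      congr 1
      exact Subtype.ext h
  natural := by
    intro X X' _ _ U V U' V' hU hV hUV hU' hV' hUV' f hfU hfV q z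
    rw [delta_eq_iff hSM hU' hV' hUV']
    obtain ⟨a, b, c, hx, hc, h1, h2, h3⟩ := delta_spec hSM hU hV hUV q z
    have e1 : pf R (q + 2) f (pf R (q + 2) (inc U) a) =
        pf R (q + 2) (inc U') (pf R (q + 2) (res f hfU) a) := by
      rw [← HH.pf_comp, ← HH.pf_comp]; rfl
    have e2 : pf R (q + 2) f (pf R (q + 2) (inc V) b) =
        pf R (q + 2) (inc V') (pf R (q + 2) (res f hfV) b) := by
      rw [← HH.pf_comp, ← HH.pf_comp]; rfl
    have hx' := HH.pf_mem_ZZ R f hx
    rw [map_add, e1, e2] at hx'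
    refine ⟨pf R (q + 2) (res f hfU) a, pf R (q + 2) (res f hfV) b,
      pf R (q + 1) (res f (mapsTo_inter hfU hfV)) c, hx', HH.pf_mem_ZZ R _ hc, ?_, ?_, ?_⟩
    · rw [h1, HH.map_mk]
      congr 1
      apply Subtype.ext
      show pf R (q + 2) f (pf R (q + 2) (inc U) a + pf R (q + 2) (inc V) b) = _
      rw [map_add, e1, e2]
    · rw [h2, HH.map_mk]
      rfl
    · rw [bd_pf, ← h3, ← HH.pf_comp, ← HH.pf_comp]
      rfl
  anti := by
    intro X X' _ _ U V U' V' hU hV hUV hU' hV' hUV' f hfU hfV q z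
    rw [delta_eq_iff hSM hU' hV' hUV']
    obtain ⟨a, b, c, hx, hc, h1, h2, h3⟩ := delta_spec hSM hU hV hUV q z
    have h4 := bd_right hx h3
    have e1 : pf R (q + 2) f (pf R (q + 2) (inc U) a) =
        pf R (q + 2) (inc V') (pf R (q + 2) (res f hfU) a) := by
      rw [← HH.pf_comp, ← HH.pf_comp]; rfl
    have e2 : pf R (q + 2) f (pf R (q + 2) (inc V) b) =
        pf R (q + 2) (inc U') (pf R (q + 2) (res f hfV) b) := by
      rw [← HH.pf_comp, ← HH.pf_comp]; rfl
    have hx' := HH.pf_mem_ZZ R f hx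
    have e3 := add_comm (pf R (q + 2) (inc V') (pf R (q + 2) (res f hfU) a))
      (pf R (q + 2) (inc U') (pf R (q + 2) (res f hfV) b))
    rw [map_add, e1, e2, e3] at hx'
    refine ⟨pf R (q + 2) (res f hfV) b, pf R (q + 2) (res f hfU) a,
      -pf R (q + 1) (res f (mapsTo_inter' hfU hfV)) c, hx',
      Submodule.neg_mem _ (HH.pf_mem_ZZ R _ hc), ?_, ?_, ?_⟩
    · rw [h1, HH.map_mk]
      congr 1
      apply Subtype.ext
      show pf R (q + 2) f (pf R (q + 2) (inc U) a + pf R (q + 2) (inc V) b) = _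
      rw [map_add, e1, e2, e3]
    · rw [h2, HH.map_mk, ← map_neg]
      rfl
    · have h5 : bd R (q + 1) V b = -pf R (q + 1) (incR U V) c := by rw [h4, neg_neg]
      rw [bd_pf, h5, map_neg, map_neg, ← HH.pf_comp, ← HH.pf_comp]
      rfl

/-- [MV] -/
theorem mv (hSM : T_SM) : T_MV := fun R _ => ⟨mvTheory hSM R⟩

end MV

end Pool.Agent.H70.LB
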