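import Pool.Agent.H70.LB.MV

/-!
# MP_2059f1_ag, block L, module MVS: Mayer-Vietoris for two open subsets of an ambient space
-/

open Topology Set
open Pool.Agent.H59
open Pool.Agent.H64.LB

namespace Pool.Agent.H70.LB

section
variable {X : Type} [TopologicalSpace X]

/-- `U` as a subset of `U ∪ V` -/
def uL (U V : Set X) : Set ↥(U ∪ V) := Subtype.val ⁻¹' U
/-- `V` as a subset of `U ∪ V` -/
def uR (U V : Set X) : Set ↥(U ∪ V) := Subtype.val ⁻¹' V

theorem isOpen_uL {U : Set X} (hU : IsOpen U) (V : Set X) : IsOpen (uL U V) :=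
  hU.preimage continuous_subtype_val

theorem isOpen_uR (U : Set X) {V : Set X} (hV : IsOpen V) : IsOpen (uR U V) :=
  hV.preimage continuous_subtype_val

omit [TopologicalSpace X] in
theorem uL_union_uR (U V : Set X) : uL U V ∪ uR U V = univ := by
  ext ⟨x, hx⟩
  simp only [mem_univ, iff_true]
  exact hx

/-- the identifications -/
def eI (U V : Set X) : C(↥(uL U V ∩ uR U V), ↥(U ∩ V)) :=
  ⟨fun x => ⟨x.1.1, x.2.1, x.2.2⟩, by fun_prop⟩
def eI' (U V : Set X) : C(↥(U ∩ V), ↥(uL U V ∩ uR U V)) :=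
  ⟨fun x => ⟨⟨x.1, Or.inl x.2.1⟩, x.2.1, x.2.2⟩, by fun_prop⟩
def eL (U V : Set X) : C(↥(uL U V), ↥U) := ⟨fun x => ⟨x.1.1, x.2⟩, by fun_prop⟩
def eL' (U V : Set X) : C(↥U, ↥(uL U V)) := ⟨fun x => ⟨⟨x.1, Or.inl x.2⟩, x.2⟩, by fun_prop⟩
def eR (U V : Set X) : C(↥(uR U V), ↥V) := ⟨fun x => ⟨x.1.1, x.2⟩, by fun_prop⟩
def eR' (U V : Set X) : C(↥V, ↥(uR U V)) := ⟨fun x => ⟨⟨x.1, Or.inr x.2⟩, x.2⟩, by fun_prop⟩

variable (R : Type) [CommRing R]

theorem mapEq {Y Z : Type} [TopologicalSpace Y] [TopologicalSpace Z] {W : Type}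
    [TopologicalSpace W] {f : C(Y, Z)} {g : C(Z, W)} {h : C(Y, W)} (he : g.comp f = h) (q : ℕ)
    (z : HH R q Y) : HH.map R q g (HH.map R q f z) = HH.map R q h z := by
  rw [← HH.map_comp, he]

theorem mapId {Y Z : Type} [TopologicalSpace Y] [TopologicalSpace Z] {f : C(Y, Z)} {g : C(Z, Y)}
    (he : g.comp f = ContinuousMap.id Y) (q : ℕ) (z : HH R q Y) :
    HH.map R q g (HH.map R q f z) = z := by
  rw [← HH.map_comp, he, HH.map_id]

end

/-- [MVS] -/
theorem mvs (hMV : T_MV) : T_MVS := by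
  intro R _
  obtain ⟨M⟩ := hMV R
  refine ⟨{
    δ := fun X _ U V q => (HH.map R q (eI U V)).comp (M.δ ↥(U ∪ V) (uL U V) (uR U V) q)
    exact_inter := ?_
    exact_union := ?_
    exact_sum := ?_
    surj_zero := ?_
    natural := ?_
    anti := ?_ }⟩
  · intro X _ U V hU hV q w
    have h := M.exact_inter ↥(U ∪ V) (uL U V) (uR U V) (isOpen_uL hU V) (isOpen_uR U hV)
      (uL_union_uR U V) q (HH.map R q (eI' U V) w)
    constructor
    · rintro ⟨h1, h2⟩
      obtain ⟨z, hz⟩ := h.1 ⟨by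
        rw [← HH.map_comp]
        change HH.map R q ((eL' U V).comp (incL U V)) w = 0
        rw [HH.map_comp, h1, map_zero], by
        rw [← HH.map_comp]
        change HH.map R q ((eR' U V).comp (incR U V)) w = 0
        rw [HH.map_comp, h2, map_zero]⟩
      refine ⟨z, ?_⟩
      rw [LinearMap.comp_apply, hz]
      exact mapId R rfl q w
    · rintro ⟨z, rfl⟩
      rw [LinearMap.comp_apply, mapId R (f := eI U V) (g := eI' U V) rfl] at h
      obtain ⟨h1, h2⟩ := h.2 ⟨z, rfl⟩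
      rw [LinearMap.comp_apply]
      constructor
      · rw [← HH.map_comp]
        change HH.map R q ((eL U V).comp (incL (uL U V) (uR U V))) _ = 0
        rw [HH.map_comp, h1, map_zero]
      · rw [← HH.map_comp]
        change HH.map R q ((eR U V).comp (incR (uL U V) (uR U V))) _ = 0
        rw [HH.map_comp, h2, map_zero]
  · intro X _ U V hU hV q z
    have h := M.exact_union ↥(U ∪ V) (uL U V) (uR U V) (isOpen_uL hU V) (isOpen_uR U hV)
      (uL_union_uR U V) q z
    rw [LinearMap.comp_apply]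
    have h0 : HH.map R q (eI U V) (M.δ ↥(U ∪ V) (uL U V) (uR U V) q z) = 0 ↔
        M.δ ↥(U ∪ V) (uL U V) (uR U V) q z = 0 := by
      constructor
      · intro h1
        have h2 := congrArg (HH.map R q (eI' U V)) h1
        rwa [mapId R (f := eI U V) (g := eI' U V) rfl, map_zero] at h2
      · intro h1
        rw [h1, map_zero]
    rw [h0, ← h]
    constructor
    · rintro ⟨a, b, rfl⟩
      refine ⟨HH.map R (q + 1) (eL' U V) a, HH.map R (q + 1) (eR' U V) b, ?_⟩
      rw [mapEq R (h := incUL U V) rfl, mapEq R (h := incUR U V) rfl]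
    · rintro ⟨a, b, rfl⟩
      refine ⟨HH.map R (q + 1) (eL U V) a, HH.map R (q + 1) (eR U V) b, ?_⟩
      rw [mapEq R (h := inc (uL U V)) rfl, mapEq R (h := inc (uR U V)) rfl]
  · intro X _ U V hU hV q a b
    have h := M.exact_sum ↥(U ∪ V) (uL U V) (uR U V) (isOpen_uL hU V) (isOpen_uR U hV)
      (uL_union_uR U V) q (HH.map R q (eL' U V) a) (HH.map R q (eR' U V) b)
    rw [mapEq R (h := incUL U V) rfl, mapEq R (h := incUR U V) rfl] at h
    rw [h]
    constructor
    · rintro ⟨w, h1, h2⟩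
      refine ⟨HH.map R q (eI U V) w, ?_, ?_⟩
      · have h3 := congrArg (HH.map R q (eL U V)) h1
        rw [mapId R (f := eL' U V) (g := eL U V) rfl] at h3
        rw [h3, ← HH.map_comp, ← HH.map_comp]
        rfl
      · have h3 := congrArg (HH.map R q (eR U V)) h2
        rw [mapId R (f := eR' U V) (g := eR U V) rfl, map_neg] at h3
        rw [h3, ← HH.map_comp, ← HH.map_comp]
        rfl
    · rintro ⟨w, rfl, rfl⟩
      refine ⟨HH.map R q (eI' U V) w, ?_, ?_⟩
      · rw [← HH.map_comp, ← HH.map_comp]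
        rfl
      · rw [map_neg, ← HH.map_comp, ← HH.map_comp]
        rfl
  · intro X _ U V hU hV z
    obtain ⟨a, b, h⟩ := M.surj_zero ↥(U ∪ V) (uL U V) (uR U V) (isOpen_uL hU V) (isOpen_uR U hV)
      (uL_union_uR U V) z
    refine ⟨HH.map R 0 (eL U V) a, HH.map R 0 (eR U V) b, ?_⟩
    rw [mapEq R (h := inc (uL U V)) rfl, mapEq R (h := inc (uR U V)) rfl]
    exact h
  · intro X X' _ _ U V U' V' hU hV hU' hV' f hfU hfV q z
    have h := M.natural ↥(U ∪ V) ↥(U' ∪ V') (uL U V) (uR U V) (uL U' V') (uR U' V')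
      (isOpen_uL hU V) (isOpen_uR U hV) (uL_union_uR U V) (isOpen_uL hU' V') (isOpen_uR U' hV')
      (uL_union_uR U' V') (res f (mapsTo_union hfU hfV))
      (fun x hx => hfU hx) (fun x hx => hfV hx) q z
    rw [LinearMap.comp_apply, LinearMap.comp_apply, h, ← HH.map_comp, ← HH.map_comp]
    rfl
  · intro X X' _ _ U V U' V' hU hV hU' hV' f hfU hfV q z
    have h := M.anti ↥(U ∪ V) ↥(U' ∪ V') (uL U V) (uR U V) (uL U' V') (uR U' V')
      (isOpen_uL hU V) (isOpen_uR U hV) (uL_union_uR U V) (isOpen_uL hU' V') (isOpen_uR U' hV')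
      (uL_union_uR U' V') (res f (mapsTo_union' hfU hfV))
      (fun x hx => hfU hx) (fun x hx => hfV hx) q z
    rw [LinearMap.comp_apply, LinearMap.comp_apply, h, map_neg, ← HH.map_comp, ← HH.map_comp]
    rfl

end Pool.Agent.H70.LB
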