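import Pool.Agent.H64.LB.Targets

/-!
# Supports of singular chains (MP_2059f1_ag, block L)
-/

open Topology Set
open Pool.Agent.H59
open Pool.Agent.H64.LB

namespace Pool.Agent.H70.LB

variable {R : Type} [CommRing R] {X Y Z : Type} [TopologicalSpace X] [TopologicalSpace Y]
  [TopologicalSpace Z]

/-- push-forward along an injective map is injective on chains -/
theorem pf_inj {f : C(Y, Z)} (hf : Function.Injective f) (n : ℕ) :
    Function.Injective (pf R n f) := by
  apply Finsupp.mapDomain_injective
  intro σ τ h
  ext p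
  apply hf
  exact DFunLike.congr_fun h p

theorem inc_injective (U : Set X) : Function.Injective (inc U) := Subtype.val_injective

/-- the chain `x` is supported in `W` -/
def InS {n : ℕ} (W : Set X) (x : Ch R n X) : Prop := ∀ σ ∈ x.support, ∀ p, σ p ∈ W

theorem inS_zero {n : ℕ} (W : Set X) : InS W (0 : Ch R n X) := by
  intro σ hσ
  simp at hσ

theorem InS.add {n : ℕ} {W : Set X} {x y : Ch R n X} (hx : InS W x) (hy : InS W y) :
    InS W (x + y) := by
  classical
  intro σ hσ
  rcases Finset.mem_union.1 (Finsupp.support_add hσ) with h | h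
  · exact hx σ h
  · exact hy σ h

theorem inS_single {n : ℕ} {W : Set X} {σ : Smp n X} (h : ∀ p, σ p ∈ W) (r : R) :
    InS W (Finsupp.single σ r : Ch R n X) := by
  intro τ hτ
  have := Finsupp.support_single_subset hτ
  rw [Finset.mem_singleton] at this
  rw [this]; exact h

theorem inS_pf {n : ℕ} (W : Set X) (y : Ch R n W) : InS W (pf R n (inc W) y) := by
  induction y using Finsupp.induction_linear with
  | zero => rw [map_zero]; exact inS_zero W
  | add u v hu hv => rw [map_add]; exact hu.add hv
  | single σ r =>
    rw [pf_single]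
    apply inS_single
    intro p
    exact (σ p).2

theorem exists_pf_of_inS {n : ℕ} {W : Set X} {x : Ch R n X} (h : InS W x) :
    ∃ y : Ch R n W, pf R n (inc W) y = x := by
  induction x using Finsupp.induction with
  | zero => exact ⟨0, map_zero _⟩
  | single_add σ r x hσ hr ih =>
    have h1 : InS W x := by
      intro τ hτ
      apply h
      have hne : τ ≠ σ := by
        rintro rfl
        exact hσ hτ
      rw [Finsupp.mem_support_iff, Finsupp.add_apply, Finsupp.single_eq_of_ne hne, zero_add]
      exact Finsupp.mem_support_iff.1 hτ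
    have h2 : ∀ p, σ p ∈ W := by
      apply h
      rw [Finsupp.mem_support_iff, Finsupp.add_apply, Finsupp.single_eq_same,
        Finsupp.notMem_support_iff.1 hσ, add_zero]
      exact hr
    obtain ⟨y, hy⟩ := ih h1
    refine ⟨Finsupp.single (⟨fun p => ⟨σ p, h2 p⟩, σ.continuous.subtype_mk _⟩ : Smp n W) r + y, ?_⟩
    rw [map_add, hy, pf_single]
    rfl

/-- a chain of `U` and a chain of `V` with the same image come from `U ∩ V` -/
theorem exists_inter {n : ℕ} {U V : Set X} {a : Ch R n U} {b : Ch R n V}
    (h : pf R n (inc U) a = pf R n (inc V) b) :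
    ∃ c : Ch R n ↥(U ∩ V), pf R n (incL U V) c = a ∧ pf R n (incR U V) c = b := by
  have h1 : InS (U ∩ V) (pf R n (inc U) a) := by
    intro σ hσ p
    refine ⟨inS_pf U a σ hσ p, ?_⟩
    rw [h] at hσ
    exact inS_pf V b σ hσ p
  obtain ⟨c, hc⟩ := exists_pf_of_inS h1
  have hL : pf R n (inc (U ∩ V)) c = pf R n (inc U) (pf R n (incL U V) c) :=
    HH.pf_comp R n (incL U V) (inc U) c
  have hR : pf R n (inc (U ∩ V)) c = pf R n (inc V) (pf R n (incR U V) c) :=
    HH.pf_comp R n (incR U V) (inc V) c
  refine ⟨c, pf_inj (inc_injective U) n ?_, pf_inj (inc_injective V) n ?_⟩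
  · rw [← hL, hc]
  · rw [← hR, hc, h]

theorem incL_injective (U V : Set X) : Function.Injective (incL U V) :=
  Set.inclusion_injective inter_subset_left

theorem incR_injective (U V : Set X) : Function.Injective (incR U V) :=
  Set.inclusion_injective inter_subset_right

theorem incS_injective {U V : Set X} (h : U ⊆ V) : Function.Injective (incS h) :=
  Set.inclusion_injective h

theorem pf_incL (n : ℕ) (U V : Set X) (c : Ch R n ↥(U ∩ V)) :
    pf R n (inc U) (pf R n (incL U V) c) = pf R n (inc (U ∩ V)) c :=
  (HH.pf_comp R n (incL U V) (inc U) c).symm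

theorem pf_incR (n : ℕ) (U V : Set X) (c : Ch R n ↥(U ∩ V)) :
    pf R n (inc V) (pf R n (incR U V) c) = pf R n (inc (U ∩ V)) c :=
  (HH.pf_comp R n (incR U V) (inc V) c).symm

end Pool.Agent.H70.LB
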